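import Pool.Agent.W355.FR.Stm

/-!
Project FR, part MST: transfer of the Szpiro inequality from `ℚ[X]` to `ℤ[X]`.
-/

set_option autoImplicit false

namespace Pool.Agent.W968.FR

open Polynomial UniqueFactorizationMonoid Pool.Agent.W355.FR

/-- the map -/
abbrev φ : ℤ →+* ℚ := Int.castRingHom ℚ

lemma dvd_iff (P Q : ℤ[X]) (hP : P.IsPrimitive) : P ∣ Q ↔ P.map φ ∣ Q.map φ := by
  constructor
  · exact fun h => Polynomial.map_dvd _ h
  · intro h
    by_cases hQ : Q = 0
    · rw [hQ]; exact dvd_zero _
    have hc : Q.content ≠ 0 := by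
      rw [Ne, Polynomial.content_eq_zero_iff]; exact hQ
    have h1 : Q.map φ = C (Q.content : ℚ) * Q.primPart.map φ := by
      conv_lhs => rw [Q.eq_C_content_mul_primPart]
      rw [Polynomial.map_mul, Polynomial.map_C]
      rfl
    have hu : IsUnit (C (Q.content : ℚ)) := by
      rw [Polynomial.isUnit_C]
      exact isUnit_iff_ne_zero.2 (by exact_mod_cast hc)
    rw [h1, hu.dvd_mul_left] at h
    have h2 : P ∣ Q.primPart :=
      (Polynomial.IsPrimitive.Int.dvd_iff_map_cast_dvd_map_cast P Q.primPart hP).2 h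
    rw [Q.eq_C_content_mul_primPart]
    exact h2.mul_left _

lemma prim_pow {P : ℤ[X]} (hP : P.IsPrimitive) (n : ℕ) : (P ^ n).IsPrimitive := by
  induction n with
  | zero => rw [pow_zero]; exact Polynomial.isPrimitive_one
  | succ n ih => rw [pow_succ]; exact ih.mul hP

lemma lift (p : ℚ[X]) (hp : Irreducible p) :
    ∃ P : ℤ[X], Irreducible P ∧ P.IsPrimitive ∧ Associated (P.map φ) p := by
  obtain ⟨b, hb⟩ := IsLocalization.integerNormalization_map_to_map (nonZeroDivisors ℤ) p
  set N := IsLocalization.integerNormalization (nonZeroDivisors ℤ) p with hN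
  have hb0 : ((b : ℤ) : ℚ) ≠ 0 := by
    have := nonZeroDivisors.coe_ne_zero b
    exact_mod_cast this
  have h0 : N.map φ = C ((b : ℤ) : ℚ) * p := by
    have h1 : N.map φ = (b : ℤ) • p := hb
    rw [h1, ← Polynomial.smul_eq_C_mul]
    ext i
    simp
  have hN0 : N ≠ 0 := by
    intro h
    rw [h, Polynomial.map_zero] at h0
    have h2 := h0.symm
    rw [mul_eq_zero] at h2
    rcases h2 with h2 | h2
    · rw [Polynomial.C_eq_zero] at h2; exact hb0 h2
    · exact hp.ne_zero h2
  have hc : N.content ≠ 0 := by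
    rw [Ne, Polynomial.content_eq_zero_iff]; exact hN0
  have h1 : N.map φ = C (N.content : ℚ) * N.primPart.map φ := by
    conv_lhs => rw [N.eq_C_content_mul_primPart]
    rw [Polynomial.map_mul, Polynomial.map_C]
    rfl
  have hu : IsUnit (C (N.content : ℚ)) := by
    rw [Polynomial.isUnit_C]
    exact isUnit_iff_ne_zero.2 (by exact_mod_cast hc)
  have hv : IsUnit (C ((b : ℤ) : ℚ)) := by
    rw [Polynomial.isUnit_C]
    exact isUnit_iff_ne_zero.2 hb0
  have ha : Associated (N.primPart.map φ) p := by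
    have a1 : Associated (C (N.content : ℚ) * N.primPart.map φ) (N.primPart.map φ) :=
      associated_unit_mul_left _ _ hu
    have a2 : Associated (C ((b : ℤ) : ℚ) * p) p := associated_unit_mul_left _ _ hv
    rw [← h1, h0] at a1
    exact a1.symm.trans a2
  refine ⟨N.primPart, ?_, N.isPrimitive_primPart, ha⟩
  rw [Polynomial.IsPrimitive.Int.irreducible_iff_irreducible_map_cast N.isPrimitive_primPart]
  exact ha.symm.irreducible hp

lemma deg_eq {P : ℤ[X]} {p : ℚ[X]} (h : Associated (P.map φ) p) : P.natDegree = p.natDegree := by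
  rw [← Polynomial.natDegree_map_eq_of_injective (RingHom.injective_int φ) P]
  obtain ⟨u, hu⟩ := h
  rw [← hu]
  obtain ⟨c, hc, hcu⟩ := Polynomial.isUnit_iff.1 u.isUnit
  rw [← hcu, mul_comm, Polynomial.natDegree_C_mul hc.ne_zero]

theorem mst : P_MST := by
  classical
  intro hQ k A B hA hB hD hD0 hmin hder
  have inj : Function.Injective φ := RingHom.injective_int φ
  have hmapD : (4 * A ^ 3 + 27 * B ^ 2).map φ = 4 * (A.map φ) ^ 3 + 27 * (B.map φ) ^ 2 := by
    simp [Polynomial.map_add, Polynomial.map_mul, Polynomial.map_pow]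
  have hDQ0 : 4 * (A.map φ) ^ 3 + 27 * (B.map φ) ^ 2 ≠ 0 := by
    rw [← hmapD]
    exact (Polynomial.map_ne_zero_iff inj).2 hD0
  set T : Finset ℚ[X] := (normalizedFactors (4 * (A.map φ) ^ 3 + 27 * (B.map φ) ^ 2)).toFinset
    with hT
  have memT : ∀ p : ℚ[X], p ∈ T ↔ Irreducible p ∧ normalize p = p ∧
      p ∣ 4 * (A.map φ) ^ 3 + 27 * (B.map φ) ^ 2 := by
    intro p
    rw [hT, Multiset.mem_toFinset]
    constructor
    · intro h
      exact ⟨irreducible_of_normalized_factor p h, normalize_normalized_factor p h,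
        dvd_of_mem_normalizedFactors h⟩
    · rintro ⟨h1, h2, h3⟩
      obtain ⟨q, hq, hpq⟩ := exists_mem_normalizedFactors_of_dvd hDQ0 h1 h3
      have h4 := normalize_normalized_factor q hq
      have h5 : normalize p = normalize q := normalize_eq_normalize_iff_associated.2 hpq
      rw [h2, h4] at h5
      rw [h5]; exact hq
  have monT : ∀ p ∈ T, p.Monic := by
    intro p hp
    obtain ⟨h1, h2, h3⟩ := (memT p).1 hp
    rw [← h2]
    exact Polynomial.monic_normalize h1.ne_zero
  have key := hQ k (A.map φ) (B.map φ)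
    (by rw [Polynomial.natDegree_map_eq_of_injective inj]; exact hA)
    (by rw [Polynomial.natDegree_map_eq_of_injective inj]; exact hB)
    (by rw [← hmapD, Polynomial.natDegree_map_eq_of_injective inj]; exact hD) hDQ0
    (by
      intro p hp h4 h6
      obtain ⟨P, hP, hPp, ha⟩ := lift p hp
      have h4' : P ^ 4 ∣ A := by
        rw [dvd_iff _ _ (prim_pow hPp 4), Polynomial.map_pow]
        exact ((ha.pow_pow (n := 4)).dvd).trans h4
      have h6' : P ^ 6 ∣ B := by
        rw [dvd_iff _ _ (prim_pow hPp 6), Polynomial.map_pow]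
        exact ((ha.pow_pow (n := 6)).dvd).trans h6
      refine hmin P hP ?_ h4' h6'
      rw [deg_eq ha]
      exact hp.natDegree_pos)
    (by
      rw [Polynomial.derivative_map, Polynomial.derivative_map]
      have h1 : (3 * derivative A * B - 2 * A * derivative B).map φ =
          3 * (derivative A).map φ * B.map φ - 2 * A.map φ * (derivative B).map φ := by
        simp [Polynomial.map_sub, Polynomial.map_mul]
      rw [← h1]
      exact (Polynomial.map_ne_zero_iff inj).2 hder)
    T (fun p hp => ⟨((memT p).1 hp).1, monT p hp⟩)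
    (fun p h1 h2 h3 => (memT p).2 ⟨h1, h2.normalize_eq_self, h3⟩)
    (fun p hp => ((memT p).1 hp).2.2)
    (fun p => if p ∣ A.map φ then 2 else 1)
    (fun p _ h => if_pos h) (fun p _ h => if_neg h)
  let L : ℚ[X] → ℤ[X] := fun p => if h : Irreducible p then Classical.choose (lift p h) else 0
  have hL : ∀ p ∈ T, Irreducible (L p) ∧ (L p).IsPrimitive ∧ Associated ((L p).map φ) p := by
    intro p hp
    have h1 := ((memT p).1 hp).1
    have h2 : L p = Classical.choose (lift p h1) := dif_pos h1
    rw [h2]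
    exact Classical.choose_spec (lift p h1)
  have eqT : ∀ p ∈ T, ∀ q ∈ T, Associated p q → p = q := fun p hp q hq h =>
    Polynomial.eq_of_monic_of_associated (monT p hp) (monT q hq) h
  have injL : ∀ p ∈ T, ∀ q ∈ T, L p = L q → p = q := by
    intro p hp q hq h
    apply eqT p hp q hq
    have h1 := (hL p hp).2.2
    rw [h] at h1
    exact h1.symm.trans (hL q hq).2.2
  refine ⟨T.image L, ?_, ?_, ?_⟩
  · intro P hP
    obtain ⟨p, hp, rfl⟩ := Finset.mem_image.1 hP
    obtain ⟨h1, h2, h3⟩ := hL p hp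
    refine ⟨h1, ?_, ?_⟩
    · rw [deg_eq h3]
      exact ((memT p).1 hp).1.natDegree_pos
    · rw [dvd_iff _ _ h2, hmapD]
      exact h3.dvd.trans ((memT p).1 hp).2.2
  · intro P hP Q hQ' hne
    obtain ⟨p, hp, rfl⟩ := Finset.mem_image.1 hP
    obtain ⟨q, hq, rfl⟩ := Finset.mem_image.1 hQ'
    obtain ⟨h1, h2, h3⟩ := hL p hp
    obtain ⟨h4, h5, h6⟩ := hL q hq
    have i1 : Irreducible ((L p).map φ) := h3.symm.irreducible ((memT p).1 hp).1
    have i2 : Irreducible ((L q).map φ) := h6.symm.irreducible ((memT q).1 hq).1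
    rw [i1.coprime_iff_not_dvd]
    intro hd
    have ha := i1.associated_of_dvd i2 hd
    apply hne
    rw [eqT p hp q hq (h3.symm.trans (ha.trans h6))]
  · rw [Finset.sum_image (fun p hp q hq h => injL p hp q hq h)]
    refine key.trans (le_of_eq ?_)
    apply Finset.sum_congr rfl
    intro p hp
    obtain ⟨h1, h2, h3⟩ := hL p hp
    rw [deg_eq h3]
    congr 1
    unfold wt
    have h4 : L p ∣ A ↔ p ∣ A.map φ := by
      rw [dvd_iff _ _ h2]
      exact h3.dvd_iff_dvd_left
    by_cases h5 : p ∣ A.map φ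
    · rw [if_pos h5, if_pos (h4.2 h5)]
    · rw [if_neg h5, if_neg (fun h => h5 (h4.1 h))]

end Pool.Agent.W968.FR
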